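import Pool.Agent.helper76.LP.Defs

/-! # Project QR: GB (independence of the subgroups `Gam d p`) -/

namespace Pool.Agent.helper76.LP

open Finset

lemma Gam_le_ker (d p r : ℕ) [NeZero d] (hr : r ∣ d) (hp : p ∣ d) (h : r ∣ d / p) :
    Gam d p ≤ (ZMod.unitsMap hr).ker := by
  intro u hu
  unfold Gam at hu
  rw [dif_pos hp, MonoidHom.mem_ker] at hu
  rw [MonoidHom.mem_ker]
  have h1 : ZMod.unitsMap hr u = ZMod.unitsMap h (ZMod.unitsMap (Nat.div_dvd_of_dvd hp) u) := by
    have h2 := ZMod.unitsMap_comp h (Nat.div_dvd_of_dvd hp)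
    rw [← h2]; rfl
  rw [h1, hu, map_one]

lemma Pl_Gam_le (d r : ℕ) [NeZero d] (hr : r ∣ d) (L : List ℕ)
    (h : ∀ p ∈ L, p ∣ d ∧ r ∣ d / p) : Pl (Gam d) L ≤ (ZMod.unitsMap hr).ker := by
  induction L with
  | nil => exact bot_le
  | cons i L ih =>
    refine sup_le ?_ (ih fun p hp => h p (List.mem_cons_of_mem _ hp))
    have h1 := h i List.mem_cons_self
    exact Gam_le_ker d i r hr h1.1 h1.2

theorem Pl_Gam_cast (d r : ℕ) [NeZero d] (hr : r ∣ d) (L : List ℕ)
    (h : ∀ p ∈ L, p ∣ d ∧ r ∣ d / p) (u : (ZMod d)ˣ) (hu : u ∈ Pl (Gam d) L) :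
    ZMod.castHom hr (ZMod r) (u : ZMod d) = 1 := by
  have h1 := Pl_Gam_le d r hr L h hu
  rw [MonoidHom.mem_ker] at h1
  have h2 := congrArg Units.val h1
  simpa [ZMod.unitsMap_def] using h2

theorem indep_Gam (d : ℕ) [NeZero d] (L : List ℕ) (hL : L.Nodup)
    (hp : ∀ p ∈ L, p ∈ d.primeFactors) : Indep (Gam d) L := by
  induction L with
  | nil => trivial
  | cons i L ih =>
    rw [List.nodup_cons] at hL
    refine ⟨?_, ih hL.2 fun p h => hp p (List.mem_cons_of_mem _ h)⟩
    have hi := hp i List.mem_cons_self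
    have hip : i.Prime := Nat.prime_of_mem_primeFactors hi
    have hid : i ∣ d := Nat.dvd_of_mem_primeFactors hi
    have hd0 : d ≠ 0 := NeZero.ne d
    have hr : ordProj[i] d ∣ d := Nat.ordProj_dvd d i
    rw [Subgroup.disjoint_def]
    intro u hu hu'
    have h1 := Pl_Gam_cast d (ordProj[i] d) hr L (by
      intro p hpL
      have hp1 := hp p (List.mem_cons_of_mem _ hpL)
      have hpp : p.Prime := Nat.prime_of_mem_primeFactors hp1
      have hpd : p ∣ d := Nat.dvd_of_mem_primeFactors hp1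
      refine ⟨hpd, ?_⟩
      have hne : i ≠ p := by rintro rfl; exact hL.1 hpL
      have hcop : Nat.Coprime (ordProj[i] d) p :=
        Nat.Coprime.pow_left _ ((Nat.coprime_primes hip hpp).2 hne)
      obtain ⟨k, hk⟩ := hpd
      have hk2 : d / p = k := by
        rw [hk, Nat.mul_div_cancel_left _ hpp.pos]
      rw [hk2]
      apply hcop.dvd_of_dvd_mul_left
      rw [← hk]; exact hr) u hu'
    have h2 := Gam_le_ker d i (d / i) (Nat.div_dvd_of_dvd hid) hid dvd_rfl hu
    rw [MonoidHom.mem_ker] at h2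
    have h3 : ZMod.castHom (Nat.div_dvd_of_dvd hid) (ZMod (d / i)) (u : ZMod d) = 1 := by
      have h2 := congrArg Units.val h2
      simpa [ZMod.unitsMap_def] using h2
    -- `u - 1` is divisible by both
    have e1 : (((u : ZMod d).val : ℕ) : ZMod (ordProj[i] d)) = ((1 : ℕ) : ZMod _) := by
      rw [Nat.cast_one, ← h1]
      conv_rhs => rw [← ZMod.natCast_zmod_val (u : ZMod d)]
      rw [map_natCast]
    have e2 : (((u : ZMod d).val : ℕ) : ZMod (d / i)) = ((1 : ℕ) : ZMod _) := by
      rw [Nat.cast_one, ← h3]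
      conv_rhs => rw [← ZMod.natCast_zmod_val (u : ZMod d)]
      rw [map_natCast]
    rw [ZMod.natCast_eq_natCast_iff] at e1 e2
    have e3 : (u : ZMod d).val ≡ 1 [MOD d] := by
      have h4 : d ∣ Nat.lcm (ordProj[i] d) (d / i) := by
        -- compare the parts
        have h5 : ordProj[i] d * ordCompl[i] d = d := Nat.ordProj_mul_ordCompl_eq_self d i
        have hcop : Nat.Coprime (ordProj[i] d) (ordCompl[i] d) :=
          Nat.Coprime.pow_left _ (Nat.coprime_ordCompl hip hd0)
        have h6 : ordCompl[i] d ∣ d / i := by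
          have h7 : Nat.Coprime (ordCompl[i] d) i := (Nat.coprime_ordCompl hip hd0).symm
          obtain ⟨k, hk⟩ := hid
          have hk2 : d / i = k := by
            conv_lhs => rw [hk]
            rw [Nat.mul_div_cancel_left _ hip.pos]
          rw [hk2]
          apply h7.dvd_of_dvd_mul_left
          rw [← hk]
          exact Nat.ordCompl_dvd d i
        conv_lhs => rw [← h5]
        exact hcop.mul_dvd_of_dvd_of_dvd (Nat.dvd_lcm_left _ _) (h6.trans (Nat.dvd_lcm_right _ _))
      have h5 : (u : ZMod d).val ≡ 1 [MOD Nat.lcm (ordProj[i] d) (d / i)] := by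
        rw [Nat.modEq_iff_dvd] at e1 e2 ⊢
        rw [Int.natCast_dvd] at e1 e2 ⊢
        exact Nat.lcm_dvd e1 e2
      exact h5.of_dvd h4
    apply Units.ext
    rw [Units.val_one]
    rw [← ZMod.natCast_zmod_val (u : ZMod d)]
    rw [← ZMod.natCast_eq_natCast_iff] at e3
    rw [e3, Nat.cast_one]

end Pool.Agent.helper76.LP
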