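import Pool.Agent.helper76.LP.Defs

/-! # Project QR: MS (minimal support, locality of vanishing differences) -/

namespace Pool.Agent.helper76.LP

open Finset

theorem min_support {G ι : Type*} [CommGroup G] [Fintype G] (Γ : ι → Subgroup G) (L : List ι)
    (hI : Indep Γ L) (f : G → ℤ) (hf : MDv Γ L f) (x : G) (hx : f x ≠ 0) :
    ∃ i ∈ L, Nat.card (Γ i) ≤ Sl Γ L f x := by
  classical
  induction L generalizing f x with
  | nil => exact absurd (hf x) hx
  | cons i L ih =>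
    obtain ⟨hd, hI'⟩ := hI
    by_cases hA : ∀ z ∈ Γ i, ∃ w ∈ Pl Γ L, f (z * w * x) ≠ 0
    · refine ⟨i, List.mem_cons_self, ?_⟩
      choose! W hW1 hW2 using hA
      unfold Sl
      refine Nat.card_le_card_of_injective
        (fun z : Γ i => (⟨z.1 * W z.1 * x, ?_, hW2 z.1 z.2⟩ :
          {y : G // y * x⁻¹ ∈ Pl Γ (i :: L) ∧ f y ≠ 0})) ?_
      · rw [mul_inv_cancel_right]
        exact Subgroup.mul_mem_sup z.2 (hW1 z.1 z.2)
      · intro z z' h
        have h1 : z.1 * W z.1 * x = z'.1 * W z'.1 * x := congrArg Subtype.val h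
        have h2 := mul_right_cancel h1
        have h3 : z'.1⁻¹ * z.1 = W z'.1 * (W z.1)⁻¹ := by
          rw [inv_mul_eq_iff_eq_mul, ← mul_assoc, ← h2, mul_inv_cancel_right]
        have h4 : z'.1⁻¹ * z.1 ∈ Γ i := (Γ i).mul_mem ((Γ i).inv_mem z'.2) z.2
        have h5 : z'.1⁻¹ * z.1 ∈ Pl Γ L := by
          rw [h3]
          exact (Pl Γ L).mul_mem (hW1 z'.1 z'.2) ((Pl Γ L).inv_mem (hW1 z.1 z.2))
        have h6 := Subgroup.disjoint_def.1 hd h4 h5
        apply Subtype.ext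
        rw [inv_mul_eq_one] at h6
        exact h6.symm
    · push Not at hA
      obtain ⟨z0, hz0, hA⟩ := hA
      have hg : MDv Γ L (fun y => f (z0⁻¹ * y) - f y) := hf z0⁻¹ ((Γ i).inv_mem hz0)
      have hgx : ∀ w ∈ Pl Γ L, f (z0⁻¹ * (w * (z0 * x))) - f (w * (z0 * x)) = f (w * x) := by
        intro w hw
        have h1 : z0⁻¹ * (w * (z0 * x)) = w * x := by
          rw [inv_mul_eq_iff_eq_mul]
          rw [← mul_assoc, ← mul_assoc, mul_comm w z0]
        have h2 : w * (z0 * x) = z0 * w * x := by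
          rw [← mul_assoc, mul_comm w z0]
        rw [h1, h2, hA w hw, sub_zero]
      have hx' : f (z0⁻¹ * (z0 * x)) - f (z0 * x) ≠ 0 := by
        have := hgx 1 (Pl Γ L).one_mem
        rw [one_mul, one_mul] at this
        rw [this]; exact hx
      obtain ⟨j, hj, hc⟩ := ih hI' (fun y => f (z0⁻¹ * y) - f y) hg (z0 * x) hx'
      refine ⟨j, List.mem_cons_of_mem _ hj, hc.trans ?_⟩
      unfold Sl
      have key : ∀ y : G, y * (z0 * x)⁻¹ ∈ Pl Γ L → f (z0⁻¹ * y) - f y ≠ 0 →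
          (z0⁻¹ * y) * x⁻¹ ∈ Pl Γ (i :: L) ∧ f (z0⁻¹ * y) ≠ 0 := by
        intro y hy hy2
        have h1 := hgx _ hy
        rw [inv_mul_cancel_right] at h1
        have h3 : y * (z0 * x)⁻¹ * x = z0⁻¹ * y := by
          rw [mul_inv, mul_comm z0⁻¹, ← mul_assoc, mul_assoc, mul_comm z0⁻¹ x, ← mul_assoc,
            inv_mul_cancel_right, mul_comm]
        rw [h3] at h1
        refine ⟨?_, ?_⟩
        · have h4 : z0⁻¹ * y * x⁻¹ = y * (z0 * x)⁻¹ := by rw [← h3, mul_inv_cancel_right]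
          rw [h4]
          exact Subgroup.mem_sup_right hy
        · rw [← h1]; exact hy2
      refine Nat.card_le_card_of_injective
        (fun y : {y : G // y * (z0 * x)⁻¹ ∈ Pl Γ L ∧ f (z0⁻¹ * y) - f y ≠ 0} =>
          (⟨z0⁻¹ * y.1, (key y.1 y.2.1 y.2.2).1, (key y.1 y.2.1 y.2.2).2⟩ :
          {y : G // y * x⁻¹ ∈ Pl Γ (i :: L) ∧ f y ≠ 0})) ?_
      intro y y' h
      have h1 : z0⁻¹ * y.1 = z0⁻¹ * y'.1 := congrArg Subtype.val h
      exact Subtype.ext (mul_left_cancel h1)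

theorem mdv_local {G ι : Type*} [CommGroup G] (Γ : ι → Subgroup G) (L : List ι)
    (g : G → ℤ) (h : ∀ x, ∃ f, MDv Γ L f ∧ ∀ w ∈ Pl Γ L, g (w * x) = f (w * x)) :
    MDv Γ L g := by
  induction L generalizing g with
  | nil =>
    intro x
    obtain ⟨f, hf, hw⟩ := h x
    have h1 := hw 1 (Pl Γ []).one_mem
    rw [one_mul] at h1
    rw [h1]; exact hf x
  | cons i L ih =>
    intro u hu
    apply ih
    intro x
    obtain ⟨f, hf, hw⟩ := h x
    refine ⟨fun y => f (u * y) - f y, hf u hu, ?_⟩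
    intro w hwL
    have h1 : w ∈ Pl Γ (i :: L) := Subgroup.mem_sup_right hwL
    have h2 : u * w ∈ Pl Γ (i :: L) := Subgroup.mul_mem_sup hu hwL
    have h3 := hw _ h1
    have h4 := hw _ h2
    rw [mul_assoc] at h4
    simp only [h3, h4]

end Pool.Agent.helper76.LP
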